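import Pool.Agent.Helper64_FR.Basic

/-!
# CAS: the Casimir operator of an irreducible representation is a scalar
-/

open MeasureTheory Matrix Filter Topology

namespace Pool.Agent.Helper64_FR.H73

theorem star_EE {n : ℕ} (i j : Fin n) : star (EE i j) = EE j i := by
  show star (Matrix.single i j (1 : ℂ)) = Matrix.single j i 1
  rw [Matrix.star_eq_conjTranspose, Matrix.conjTranspose_single, star_one]

/-- moving two summation indices inside -/
theorem sum_move {n : ℕ} {M : Type*} [AddCommMonoid M]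
    (G : Fin n → Fin n → Fin n → Fin n → Fin n → M) :
    ∑ j, ∑ k, ∑ l, ∑ p, ∑ q, G j k l p q = ∑ k, ∑ l, ∑ p, ∑ q, ∑ j, G j k l p q := by
  rw [Finset.sum_comm]
  refine Finset.sum_congr rfl fun k _ => ?_
  rw [Finset.sum_comm]
  refine Finset.sum_congr rfl fun l _ => ?_
  rw [Finset.sum_comm]
  refine Finset.sum_congr rfl fun p _ => ?_
  rw [Finset.sum_comm]

variable {n : ℕ}

/-- invariance of the double sum of a bilinear expression -/
theorem cas_sum {R : Type*} [Ring R] [Algebra ℂ R] (A : Matrix (Fin n) (Fin n) ℂ)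
    (hA : A * star A = 1) (D : Matrix (Fin n) (Fin n) ℂ →ₗ[ℂ] R) :
    ∑ i, ∑ j, D (A * EE j i * star A) * D (A * EE i j * star A) =
      ∑ i, ∑ j, D (EE j i) * D (EE i j) := by
  have hrow : ∀ k q, ∑ j, A k j * starRingEnd ℂ (A q j) = if k = q then 1 else 0 := by
    intro k q
    have := congrFun (congrFun hA k) q
    rw [Matrix.mul_apply, Matrix.one_apply] at this
    simpa [Matrix.star_apply] using this
  have h1 : ∀ i j, D (A * EE j i * star A) * D (A * EE i j * star A) =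
      ∑ k, ∑ l, ∑ p, ∑ q, ((A k j * starRingEnd ℂ (A q j)) *
        (A p i * starRingEnd ℂ (A l i))) • (D (EE k l) * D (EE p q)) := by
    intro i j
    rw [conj_EE, conj_EE]
    simp only [map_sum, map_smul]
    simp only [Finset.sum_mul]
    simp only [Finset.mul_sum, smul_mul_smul_comm]
    refine Finset.sum_congr rfl fun k _ => Finset.sum_congr rfl fun l _ =>
      Finset.sum_congr rfl fun p _ => Finset.sum_congr rfl fun q _ => ?_
    congr 1
    ring
  simp only [h1]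
  have h2 : ∀ i, ∑ j, ∑ k, ∑ l, ∑ p, ∑ q, ((A k j * starRingEnd ℂ (A q j)) *
        (A p i * starRingEnd ℂ (A l i))) • (D (EE k l) * D (EE p q)) =
      ∑ k, ∑ l, ∑ p, ∑ q, ((if k = q then 1 else 0) *
        (A p i * starRingEnd ℂ (A l i))) • (D (EE k l) * D (EE p q)) := by
    intro i
    rw [sum_move]
    refine Finset.sum_congr rfl fun k _ => Finset.sum_congr rfl fun l _ =>
      Finset.sum_congr rfl fun p _ => Finset.sum_congr rfl fun q _ => ?_
    rw [← Finset.sum_smul, ← Finset.sum_mul, hrow]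
  simp only [h2]
  rw [sum_move]
  have h3 : ∀ k l p q, ∑ i, ((if k = q then (1 : ℂ) else 0) *
        (A p i * starRingEnd ℂ (A l i))) • (D (EE k l) * D (EE p q)) =
      ((if k = q then (1 : ℂ) else 0) * (if p = l then 1 else 0)) •
        (D (EE k l) * D (EE p q)) := by
    intro k l p q
    rw [← Finset.sum_smul, ← Finset.mul_sum, hrow]
  simp only [h3]
  have h4 : ∀ k l, ∑ p, ∑ q, ((if k = q then (1 : ℂ) else 0) * (if p = l then 1 else 0)) •
        (D (EE k l) * D (EE p q)) = D (EE k l) * D (EE l k) := by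
    intro k l
    rw [Finset.sum_eq_single l, Finset.sum_eq_single k]
    · simp
    · intro b _ hb; simp [Ne.symm hb]
    · intro h; exact absurd (Finset.mem_univ _) h
    · intro b _ hb; simp [hb]
    · intro h; exact absurd (Finset.mem_univ _) h
  simp only [h4]
  rw [Finset.sum_comm]

/-- the Casimir operator -/
noncomputable def Om (ρ : URep n) (D : Matrix (Fin n) (Fin n) ℂ →ₗ[ℂ] (ρ.Sp →L[ℂ] ρ.Sp)) :
    ρ.Sp →L[ℂ] ρ.Sp := ∑ i, ∑ j, star (D (EE i j)) * D (EE i j)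

theorem Om_eq (ρ : URep n) (D : Matrix (Fin n) (Fin n) ℂ →ₗ[ℂ] (ρ.Sp →L[ℂ] ρ.Sp))
    (hD : IsDer ρ D) : Om ρ D = ∑ i, ∑ j, D (EE j i) * D (EE i j) := by
  unfold Om
  refine Finset.sum_congr rfl fun i _ => Finset.sum_congr rfl fun j _ => ?_
  rw [hD.star_eq, star_EE]

theorem Om_comm (ρ : URep n) (D : Matrix (Fin n) (Fin n) ℂ →ₗ[ℂ] (ρ.Sp →L[ℂ] ρ.Sp))
    (hD : IsDer ρ D) (g : UU n) : ρ.op g * Om ρ D = Om ρ D * ρ.op g := by
  have hg : (g : Matrix (Fin n) (Fin n) ℂ) * star (g : Matrix (Fin n) (Fin n) ℂ) = 1 :=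
    (Matrix.mem_unitaryGroup_iff).1 g.2
  rw [Om_eq ρ D hD]
  conv_rhs => rw [← cas_sum (g : Matrix (Fin n) (Fin n) ℂ) hg D]
  simp only [Finset.mul_sum, Finset.sum_mul]
  refine Finset.sum_congr rfl fun i _ => Finset.sum_congr rfl fun j _ => ?_
  rw [← mul_assoc (ρ.op g), hD.conj_eq, mul_assoc (D _) (ρ.op g), hD.conj_eq,
    ← mul_assoc (D _) (D _)]

theorem inner_Om (ρ : URep n) (D : Matrix (Fin n) (Fin n) ℂ →ₗ[ℂ] (ρ.Sp →L[ℂ] ρ.Sp))
    (x : ρ.Sp) : inner ℂ x (Om ρ D x) = ((∑ i, ∑ j, ‖D (EE i j) x‖ ^ 2 : ℝ) : ℂ) := by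
  have h : Om ρ D x = ∑ i, ∑ j, (star (D (EE i j)) * D (EE i j)) x := by
    unfold Om
    simp only [_root_.sum_apply]
  rw [h, inner_sum]
  simp only [inner_sum]
  push_cast
  refine Finset.sum_congr rfl fun i _ => Finset.sum_congr rfl fun j _ => ?_
  rw [Function.comp_apply, ContinuousLinearMap.star_eq_adjoint,
    ContinuousLinearMap.adjoint_inner_right, inner_self_eq_norm_sq_to_K]
  rfl

theorem cas : Stmt_CAS := by
  intro n ρ D hirr hD
  obtain ⟨hdim, hW⟩ := hirr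
  have : Nonempty (Fin ρ.dim) := ⟨⟨0, hdim⟩⟩
  have : Nontrivial ρ.Sp := inferInstance
  obtain ⟨μ, hμ⟩ := Module.End.exists_eigenvalue ((Om ρ D : ρ.Sp →L[ℂ] ρ.Sp) : ρ.Sp →ₗ[ℂ] ρ.Sp)
  -- the eigenspace as a subspace of functions
  let e : ρ.Sp ≃ₗ[ℂ] (Fin ρ.dim → ℂ) := WithLp.linearEquiv 2 ℂ (Fin ρ.dim → ℂ)
  let E : Submodule ℂ ρ.Sp :=
    Module.End.eigenspace ((Om ρ D : ρ.Sp →L[ℂ] ρ.Sp) : ρ.Sp →ₗ[ℂ] ρ.Sp) μ
  have hE : ∀ x : ρ.Sp, x ∈ E ↔ Om ρ D x = μ • x := by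
    intro x; exact Module.End.mem_eigenspace_iff
  have hinv : ∀ g : UU n, ∀ x ∈ E, ρ.op g x ∈ E := by
    intro g x hx
    rw [hE] at hx ⊢
    have := congrArg (fun T : ρ.Sp →L[ℂ] ρ.Sp => T x) (Om_comm ρ D hD g)
    simp only [mul_apply_eq_comp] at this
    rw [← this, hx, map_smul]
  have htop := hW (E.map (e : ρ.Sp →ₗ[ℂ] (Fin ρ.dim → ℂ))) (by
    rintro g _ ⟨x, hx, rfl⟩
    exact ⟨ρ.op g x, hinv g x hx, rfl⟩)
  have hEtop : E = ⊤ := by
    rcases htop with h | h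
    · exfalso
      have : E = ⊥ := by
        exact (Submodule.map_eq_bot_iff (p := E)).1 h
      exact hμ this
    · have := (Submodule.map_eq_top_iff (p := E) (e := e)).1 h
      exact this
  have hall : ∀ x : ρ.Sp, Om ρ D x = μ • x := by
    intro x
    rw [← hE, hEtop]; trivial
  -- the eigenvalue is real
  have hS : ∀ x : ρ.Sp, ((∑ i, ∑ j, ‖D (EE i j) x‖ ^ 2 : ℝ) : ℂ) = μ * ((‖x‖ ^ 2 : ℝ) : ℂ) := by
    intro x
    rw [← inner_Om, hall, inner_smul_right, inner_self_eq_norm_sq_to_K]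
    push_cast
    rfl
  have hre : ∀ x : ρ.Sp, ∑ i, ∑ j, ‖D (EE i j) x‖ ^ 2 = μ.re * ‖x‖ ^ 2 := by
    intro x
    have := congrArg Complex.re (hS x)
    rwa [Complex.ofReal_re, Complex.re_mul_ofReal] at this
  obtain ⟨x₀, hx₀⟩ := exists_ne (0 : ρ.Sp)
  have hx₀' : 0 < ‖x₀‖ ^ 2 := by positivity
  have him : μ.im = 0 := by
    have := congrArg Complex.im (hS x₀)
    rw [Complex.ofReal_im, Complex.im_mul_ofReal] at this
    rcases mul_eq_zero.1 this.symm with h | h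
    · exact h
    · exact absurd h hx₀'.ne'
  have hμr : μ = (μ.re : ℂ) := by
    apply Complex.ext
    · simp
    · simp [him]
  have hc0 : 0 ≤ μ.re := by
    have h1 := hre x₀
    have h2 : 0 ≤ ∑ i, ∑ j, ‖D (EE i j) x₀‖ ^ 2 :=
      Finset.sum_nonneg fun i _ => Finset.sum_nonneg fun j _ => by positivity
    rw [h1] at h2
    exact nonneg_of_mul_nonneg_left h2 hx₀'
  refine ⟨μ.re, hc0, ?_, ?_⟩
  · unfold IsCas
    ext1 x
    have : (∑ i, ∑ j, star (D (EE i j)) * D (EE i j)) x = Om ρ D x := rfl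
    rw [this, hall, ← hμr]
    rfl
  · intro i j
    have hb : ‖D (EE i j)‖ ≤ Real.sqrt μ.re := by
      refine ContinuousLinearMap.opNorm_le_bound _ (Real.sqrt_nonneg _) fun x => ?_
      have h1 : ‖D (EE i j) x‖ ^ 2 ≤ μ.re * ‖x‖ ^ 2 := by
        rw [← hre x]
        have h2 : ‖D (EE i j) x‖ ^ 2 ≤ ∑ j', ‖D (EE i j') x‖ ^ 2 :=
          Finset.single_le_sum (f := fun j' => ‖D (EE i j') x‖ ^ 2)
            (fun j' _ => by positivity) (Finset.mem_univ j)
        exact h2.trans (Finset.single_le_sum (f := fun i' => ∑ j', ‖D (EE i' j') x‖ ^ 2)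
            (fun i' _ => Finset.sum_nonneg fun j' _ => by positivity) (Finset.mem_univ i))
      have h3 := Real.sqrt_le_sqrt h1
      rwa [Real.sqrt_sq (norm_nonneg _), Real.sqrt_mul hc0, Real.sqrt_sq (norm_nonneg _)] at h3
    calc ‖D (EE i j)‖ ^ 2 ≤ Real.sqrt μ.re ^ 2 := by
          exact pow_le_pow_left₀ (norm_nonneg _) hb 2
      _ = μ.re := Real.sq_sqrt hc0

end Pool.Agent.Helper64_FR.H73
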