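import Pool.Agent.Helper64_FR.Basic

/-!
# EQC: uniform equicontinuity at the identity
-/

open MeasureTheory Matrix Filter Topology

open scoped Matrix.Norms.L2Operator

namespace Pool.Agent.Helper64_FR.H73

theorem norm_exp_sub_one {A : Type*} [NormedRing A] [NormedAlgebra ℂ A] [CompleteSpace A]
    (x : A) (hx : ‖x‖ ≤ 1 / 4) : ‖NormedSpace.exp x - 1‖ ≤ 1 / 2 := by
  have hs : HasSum (fun n : ℕ => ((n.factorial : ℂ)⁻¹) • x ^ n) (NormedSpace.exp x) :=
    NormedSpace.exp_series_hasSum_exp' (𝕂 := ℂ) x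
  have hs1 : HasSum (fun n : ℕ => (((n + 1).factorial : ℂ)⁻¹) • x ^ (n + 1))
      (NormedSpace.exp x - 1) := by
    have := (hasSum_nat_add_iff' 1).2 hs
    simpa using this
  have hg : HasSum (fun n : ℕ => ‖x‖ * ‖x‖ ^ n) (‖x‖ * (1 - ‖x‖)⁻¹) :=
    (hasSum_geometric_of_lt_one (norm_nonneg x) (by linarith)).mul_left _
  have hle : ‖NormedSpace.exp x - 1‖ ≤ ‖x‖ * (1 - ‖x‖)⁻¹ := by
    rw [← hs1.tsum_eq]
    refine tsum_of_norm_bounded hg ?_
    intro n
    rw [norm_smul]
    have h1 : ‖(((n + 1).factorial : ℂ)⁻¹)‖ ≤ 1 := by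
      rw [norm_inv, Complex.norm_natCast]
      exact inv_le_one_of_one_le₀ (by exact_mod_cast Nat.succ_le_of_lt (Nat.factorial_pos _))
    calc ‖(((n + 1).factorial : ℂ)⁻¹)‖ * ‖x ^ (n + 1)‖ ≤ 1 * ‖x‖ ^ (n + 1) :=
          mul_le_mul h1 (norm_pow_le' x (Nat.succ_pos n)) (norm_nonneg _) zero_le_one
      _ = ‖x‖ * ‖x‖ ^ n := by ring
  refine hle.trans ?_
  rw [← div_eq_mul_inv, div_le_iff₀ (by linarith)]
  linarith

theorem matrix_sum {n : ℕ} (X : Matrix (Fin n) (Fin n) ℂ) : X = ∑ i, ∑ j, X i j • EE i j := by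
  ext p q
  rw [Matrix.sum_apply]
  simp only [Matrix.sum_apply, Matrix.smul_apply, Matrix.single_apply, smul_eq_mul, mul_ite,
    mul_one, mul_zero]
  rw [Finset.sum_eq_single p, Finset.sum_eq_single q]
  · simp
  · intro b _ hb; simp [hb]
  · intro h; exact absurd (Finset.mem_univ _) h
  · intro b _ hb; simp [hb]
  · intro h; exact absurd (Finset.mem_univ _) h

theorem eqc : Stmt_EQC := by
  intro n C
  -- the norm is controlled by the entries
  set F : UU n → ℝ := fun g =>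
    ∑ i, ∑ j, ‖((Unitary.argSelfAdjoint (A := Matrix (Fin n) (Fin n) ℂ) g :
      selfAdjoint (Matrix (Fin n) (Fin n) ℂ)) : Matrix (Fin n) (Fin n) ℂ) i j‖ * |C| with hF
  have hball : Metric.ball (1 : unitary (Matrix (Fin n) (Fin n) ℂ)) 2 ∈
      𝓝 (1 : unitary (Matrix (Fin n) (Fin n) ℂ)) := Metric.ball_mem_nhds _ (by norm_num)
  have hcont : ContinuousAt F 1 := by
    have h1 : ContinuousAt (Unitary.argSelfAdjoint (A := Matrix (Fin n) (Fin n) ℂ)) 1 :=
      Unitary.continuousOn_argSelfAdjoint.continuousAt hball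
    have h2 : ContinuousAt (fun g : UU n => ((Unitary.argSelfAdjoint
        (A := Matrix (Fin n) (Fin n) ℂ) g : selfAdjoint (Matrix (Fin n) (Fin n) ℂ)) :
        Matrix (Fin n) (Fin n) ℂ)) 1 := continuous_subtype_val.continuousAt.comp h1
    rw [hF]
    refine tendsto_finsetSum _ fun i _ => tendsto_finsetSum _ fun j _ => ?_
    refine Filter.Tendsto.mul_const _ ?_
    refine Filter.Tendsto.norm ?_
    have h3 : Continuous (fun M : Matrix (Fin n) (Fin n) ℂ => M i j) :=
      continuous_apply_apply i j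
    exact h3.continuousAt.comp h2
  have hF1 : F 1 = 0 := by
    have h0 : (Unitary.argSelfAdjoint (A := Matrix (Fin n) (Fin n) ℂ) 1) = 0 := by
      have h := Unitary.norm_argSelfAdjoint (A := Matrix (Fin n) (Fin n) ℂ) (u := 1) (by simp)
      rw [← norm_eq_zero, h]
      simp
    rw [hF]
    simp [h0]
  have hN : {g : UU n | F g < 1 / 4} ∈ 𝓝 (1 : UU n) := by
    exact hcont.preimage_mem_nhds (Iio_mem_nhds (by rw [hF1]; norm_num))
  refine ⟨{g : UU n | F g < 1 / 4} ∩ Metric.ball (1 : unitary (Matrix (Fin n) (Fin n) ℂ)) 2,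
    Filter.inter_mem hN hball, ?_⟩
  rintro ρ D hD hC g ⟨hg1, hg2⟩
  set X : Matrix (Fin n) (Fin n) ℂ := Complex.I •
    ((Unitary.argSelfAdjoint (A := Matrix (Fin n) (Fin n) ℂ) g :
      selfAdjoint (Matrix (Fin n) (Fin n) ℂ)) : Matrix (Fin n) (Fin n) ℂ) with hX
  have hg2' : ‖((g : Matrix (Fin n) (Fin n) ℂ) - 1)‖ < 2 := by
    have := Metric.mem_ball.1 hg2
    rwa [Subtype.dist_eq, dist_eq_norm] at this
  have hexp : (g : Matrix (Fin n) (Fin n) ℂ) = NormedSpace.exp X := by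
    have := expUnitary_argSelfAdjoint (A := Matrix (Fin n) (Fin n) ℂ) (u := g) hg2'
    have h2 := congrArg (fun u : unitary (Matrix (Fin n) (Fin n) ℂ) =>
      (u : Matrix (Fin n) (Fin n) ℂ)) this
    simp only [selfAdjoint.expUnitary_coe] at h2
    exact h2.symm
  have hskew : star X = -X := by
    have hs := (Unitary.argSelfAdjoint (A := Matrix (Fin n) (Fin n) ℂ) g).2
    rw [selfAdjoint.mem_iff] at hs
    rw [hX, star_smul, hs]
    simp
  rw [hD.exp_eq X g hskew hexp]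
  apply norm_exp_sub_one
  have hDX : D X = ∑ i, ∑ j, X i j • D (EE i j) := by
    conv_lhs => rw [matrix_sum X]
    simp only [map_sum, map_smul]
  rw [hDX]
  refine (norm_sum_le _ _).trans ?_
  refine (Finset.sum_le_sum fun i _ => (norm_sum_le _ _)).trans ?_
  have hle : ∑ i, ∑ j, ‖X i j • D (EE i j)‖ ≤ F g := by
    rw [hF]
    refine Finset.sum_le_sum fun i _ => Finset.sum_le_sum fun j _ => ?_
    rw [norm_smul, hX, Matrix.smul_apply, smul_eq_mul, norm_mul, Complex.norm_I, one_mul]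
    exact mul_le_mul_of_nonneg_left ((hC i j).trans (le_abs_self C)) (norm_nonneg _)
  exact hle.trans (le_of_lt hg1)

end Pool.Agent.Helper64_FR.H73
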